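import Mathlib
import Pool.Agent.R477.HH.Op

/-!
# Hereditarily hypercyclic operators on countable locally convex direct sums of Banach spaces

On every locally convex direct sum of a sequence of separable infinite-dimensional Banach spaces
there is a hereditarily hypercyclic operator. It is `1 + N` for a backward shift `N` along
countably many chains of basis vectors; a chain of height `h` starts in the summand number `h`,
and all its later vectors, from the number `h` on, lie in the summand number `0`. All corrections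
in the construction of the vector with dense orbits are made in the summand number `0`, which is
a Banach space.

The definitions `IsLCTopology` and `SumTopologies` are in `Pool/Agent/R477/HH/Top.lean`.
-/

set_option autoImplicit false
set_option linter.unusedSectionVars false

open Filter Topology

namespace Pool.Agent.Results.MP_1b62a1_an.HereditarilyHypercyclic

open Pool.Agent.R477.HH

section

variable {𝕜 : Type} {X : ℕ → Type} [RCLike 𝕜] [∀ n, NormedAddCommGroup (X n)]
  [∀ n, NormedSpace 𝕜 (X n)] [∀ n, CompleteSpace (X n)]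
  (e : ∀ k, J k → X k) (f : ∀ k, J k → (X k →L[𝕜] 𝕜))

/-- the product of the first `j` weights of the chain number `c` -/
noncomputable def W (c j : ℕ) : ℝ := ∏ i ∈ Finset.range j, wt e f (c, i + 1)

lemma W_pos (c j : ℕ) : 0 < W e f c j := Finset.prod_pos fun i _ => wt_pos e f (c, i + 1)

/-- the normalised chain -/
noncomputable def chain (c j : ℕ) : Π₀ n, X n := ((W e f c j : ℝ) : 𝕜)⁻¹ • bv e (c, j)

variable (h1 : ∀ k p, f k p (e k p) = 1) (h2 : ∀ k p q, p ≠ q → f k p (e k q) = 0)

include h1 h2 in
lemma T_chain_zero (c : ℕ) : T e f (chain e f c 0) = chain e f c 0 := by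
  unfold chain
  rw [map_smul, T_bv e f h1 h2]
  have : im e f (c, 0) = 0 := by
    unfold im
    rw [if_pos rfl]
  rw [this, add_zero]

include h1 h2 in
lemma T_chain_succ (c j : ℕ) :
    T e f (chain e f c (j + 1)) = chain e f c (j + 1) + chain e f c j := by
  unfold chain
  rw [map_smul, T_bv e f h1 h2, smul_add]
  congr 1
  have h3 : im e f (c, j + 1) = ((wt e f (c, j + 1) : ℝ) : 𝕜) • bv e (c, j) := by
    unfold im
    rw [if_neg (Nat.succ_ne_zero j)]
    rfl
  rw [h3, smul_smul]
  congr 1
  have h4 : W e f c (j + 1) = W e f c j * wt e f (c, j + 1) := Finset.prod_range_succ _ _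
  have h5 : ((W e f c j : ℝ) : 𝕜) ≠ 0 := by exact_mod_cast (W_pos e f c j).ne'
  have h6 : ((wt e f (c, j + 1) : ℝ) : 𝕜) ≠ 0 := by exact_mod_cast (wt_pos e f (c, j + 1)).ne'
  rw [h4]
  push_cast
  field_simp

/-- the components in the summand number `0` -/
noncomputable def zeta (c j : ℕ) : X 0 := (chain e f c j) 0

lemma single_zeta (c j : ℕ) (h : (Nat.unpair c).1 ≤ j) :
    (DFinsupp.single 0 (zeta e f c j) : Π₀ n, X n) = chain e f c j := by
  have h3 : lev (c, j) = 0 := by
    unfold lev
    simp only
    omega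
  have h4 : ∀ (l : ℕ) (z : X l), l = 0 →
      (DFinsupp.single 0 ((DFinsupp.single l z : Π₀ n, X n) 0) : Π₀ n, X n) =
        DFinsupp.single l z := by
    rintro l z rfl
    rw [DFinsupp.single_eq_same]
  unfold zeta chain
  rw [DFinsupp.smul_apply, DFinsupp.single_smul]
  congr 1
  exact h4 _ _ h3

/-- the finite combinations in the summand number `0` -/
noncomputable def Z₀ : Submodule 𝕜 (X 0) :=
  Submodule.span 𝕜 {z | ∃ c j : ℕ, (Nat.unpair c).1 ≤ j ∧ z = zeta e f c j}

/-- the inclusion of the summand number `0` -/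
noncomputable def inc : X 0 →ₗ[𝕜] (Π₀ n, X n) := DFinsupp.lsingle 0

include h1 h2 in
lemma mem_P (M : ℕ) (x : X 0) (hx : x ∈ Z₀ e f) (y : Π₀ n, X n)
    (hy : y ∈ Submodule.span 𝕜 (Set.range (bv e))) :
    (x, y) ∈ P (T e f) inc (Z₀ e f) M := by
  have hz : ∀ c j, (Nat.unpair c).1 ≤ j → zeta e f c j ∈ Z₀ e f := fun c j h =>
    Submodule.subset_span ⟨c, j, h, rfl⟩
  have hx' : (x, (0 : Π₀ n, X n)) ∈ P (T e f) inc (Z₀ e f) M := by
    unfold Z₀ at hx
    induction hx using Submodule.span_induction with
    | mem x hx =>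
      obtain ⟨c, j, h, rfl⟩ := hx
      exact chain_source (T e f) (chain e f c) (T_chain_zero e f h1 h2 c)
        (T_chain_succ e f h1 h2 c) inc (Z₀ e f) (zeta e f c) (Nat.unpair c).1
        (fun j hj => single_zeta e f c j hj) (fun j hj => hz c j hj) M j h
    | zero => exact Submodule.zero_mem _
    | add x x' _ _ h h' =>
      have := Submodule.add_mem _ h h'
      rwa [Prod.mk_add_mk, add_zero] at this
    | smul a x _ h =>
      have := Submodule.smul_mem _ a h
      rwa [Prod.smul_mk, smul_zero] at this
  have hy' : ((0 : X 0), y) ∈ P (T e f) inc (Z₀ e f) M := by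
    induction hy using Submodule.span_induction with
    | mem y hy =>
      obtain ⟨⟨c, j⟩, rfl⟩ := hy
      have h3 := chain_target (T e f) (chain e f c) (T_chain_zero e f h1 h2 c)
        (T_chain_succ e f h1 h2 c) inc (Z₀ e f) (zeta e f c) (Nat.unpair c).1
        (fun j hj => single_zeta e f c j hj) (fun j hj => hz c j hj) M j
      have h4 := Submodule.smul_mem _ ((W e f c j : ℝ) : 𝕜) h3
      have h5 : ((W e f c j : ℝ) : 𝕜) ≠ 0 := by exact_mod_cast (W_pos e f c j).ne'
      rw [Prod.smul_mk, smul_zero] at h4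
      unfold chain at h4
      rwa [smul_smul, mul_inv_cancel₀ h5, one_smul] at h4
    | zero => exact Submodule.zero_mem _
    | add x x' _ _ h h' =>
      have := Submodule.add_mem _ h h'
      rwa [Prod.mk_add_mk, add_zero] at this
    | smul a x _ h =>
      have := Submodule.smul_mem _ a h
      rwa [Prod.smul_mk, smul_zero] at this
  have := Submodule.add_mem _ hx' hy'
  rwa [Prod.mk_add_mk, add_zero, zero_add] at this

end

/-- On every locally convex direct sum of a sequence of separable infinite-dimensional real or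
complex Banach spaces there is a hereditarily hypercyclic operator. -/
theorem result (𝕜 : Type) [RCLike 𝕜] (X : ℕ → Type) [∀ n, NormedAddCommGroup (X n)]
    [∀ n, NormedSpace 𝕜 (X n)] [∀ n, CompleteSpace (X n)]
    [∀ n, TopologicalSpace.SeparableSpace (X n)] (hX : ∀ n, ¬ FiniteDimensional 𝕜 (X n)) :
    ∃ t : TopologicalSpace (Π₀ n, X n), IsLeast (SumTopologies 𝕜 X) t ∧
      ∃ T : (Π₀ n, X n) →ₗ[𝕜] (Π₀ n, X n), Continuous T ∧
        ∀ B : Set ℕ, B.Infinite → ∃ x : Π₀ n, X n, Dense ((fun n => (T ^ n) x) '' B) := by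
  refine ⟨sumTopology 𝕜 X, isLeast 𝕜 X, ?_⟩
  let _ := sumTopology 𝕜 X
  have := topAddGroup 𝕜 X
  have := contSMul 𝕜 X
  -- the biorthogonal systems
  have hb : ∀ k : ℕ, ∃ (e : J k → X k) (f : J k → (X k →L[𝕜] 𝕜)), (∀ p, f p (e p) = 1) ∧
      (∀ p q, p ≠ q → f p (e q) = 0) ∧
      Dense ((Submodule.span 𝕜 (Set.range e) : Submodule 𝕜 (X k)) : Set (X k)) := by
    intro k
    obtain ⟨e, f, h1, h2, h3⟩ := exists_bio 𝕜 (X k) (hX k)
    obtain ⟨hden⟩ := nonempty_denumerable (J k)
    let g : J k ≃ ℕ := Denumerable.eqv (J k)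
    refine ⟨fun p => e (g p), fun p => f (g p), fun p => h1 _,
      fun p q hpq => h2 _ _ fun h => hpq (g.injective h), ?_⟩
    have h4 : Set.range (fun p => e (g p)) = Set.range e := g.surjective.range_comp e
    rw [h4]
    exact h3
  choose e f h1 h2 h3 using hb
  have hT : Continuous (T e f) := by
    refine continuous_of 𝕜 X _ fun k => ?_
    simp only [T_single]
    exact (continuous_single 𝕜 X k).add (((continuous_single 𝕜 X k).comp (C e f k k).continuous).add
      ((continuous_single 𝕜 X (k + 1)).comp (C e f k (k + 1)).continuous))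
  -- density of the finite combinations
  have hdense : Dense ((Submodule.span 𝕜 (Set.range (bv e)) :
      Submodule 𝕜 (Π₀ n, X n)) : Set (Π₀ n, X n)) := by
    have h4 : ∀ (k : ℕ) (x : X k), (DFinsupp.single k x : Π₀ n, X n) ∈
        (Submodule.span 𝕜 (Set.range (bv e))).topologicalClosure := by
      intro k x
      have h5 : ((Submodule.span 𝕜 (Set.range (e k)) : Submodule 𝕜 (X k)) : Set (X k)) ⊆
          (fun x : X k => (DFinsupp.single k x : Π₀ n, X n)) ⁻¹'
          ((Submodule.span 𝕜 (Set.range (bv e))).topologicalClosure : Set (Π₀ n, X n)) := by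
        intro y hy
        have h6 : Submodule.span 𝕜 (Set.range (e k)) ≤
            (Submodule.span 𝕜 (Set.range (bv e))).comap (DFinsupp.lsingle k) := by
          rw [Submodule.span_le]
          rintro _ ⟨⟨p, rfl⟩, rfl⟩
          exact Submodule.subset_span ⟨p, rfl⟩
        exact Submodule.le_topologicalClosure _ (h6 hy)
      have h7 : IsClosed ((fun x : X k => (DFinsupp.single k x : Π₀ n, X n)) ⁻¹'
          ((Submodule.span 𝕜 (Set.range (bv e))).topologicalClosure : Set (Π₀ n, X n))) :=
        (Submodule.isClosed_topologicalClosure _).preimage (continuous_single 𝕜 X k)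
      exact closure_minimal h5 h7 (h3 k x)
    intro x
    rw [← Submodule.topologicalClosure_coe]
    show x ∈ (Submodule.span 𝕜 (Set.range (bv e))).topologicalClosure
    induction x using DFinsupp.induction with
    | h0 => exact Submodule.zero_mem _
    | ha k b x _ _ ih => exact Submodule.add_mem _ (h4 k b) ih
  obtain ⟨D, hD, hDm⟩ : ∃ D : ℕ → (Π₀ n, X n), DenseRange D ∧
      ∀ n, D n ∈ Submodule.span 𝕜 (Set.range (bv e)) := by
    have h4 : Set.range (fun n : ℕ => bv e (Nat.unpair n)) =
        Set.range (bv e) := Nat.surjective_unpair.range_comp (bv e)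
    have h5 := exists_dense (𝕜 := 𝕜) (fun n : ℕ => bv e (Nat.unpair n))
    rw [h4] at h5
    exact h5 hdense
  exact ⟨T e f, hT, fun B hB => criterion (T e f) hT inc (continuous_single 𝕜 X 0) (Z₀ e f) D hD
    (fun M x hx d => mem_P e f h1 h2 M x hx (D d) (hDm d)) B hB⟩

end Pool.Agent.Results.MP_1b62a1_an.HereditarilyHypercyclic
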